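import Pool.Agent.Helper54.PT.DefsD

/-!
# TW module C7: the absolute values of `F(t)`
-/

set_option autoImplicit false

namespace Pool.Agent.Helper54.PT

open Polynomial Finset Filter Topology Module Pool.Agent.Helper47.BSD

namespace C7aux

variable {F : Type} [Field F]

theorem prime (Q : Prm F) : Prime Q.1 := Q.2.2.prime

theorem fin_mult (Q : Prm F) {f : F[X]} (hf : f ≠ 0) : FiniteMultiplicity Q.1 f :=
  FiniteMultiplicity.of_prime_left (prime Q) hf

theorem mult_mul (Q : Prm F) {f g : F[X]} (hf : f ≠ 0) (hg : g ≠ 0) :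
    multiplicity Q.1 (f * g) = multiplicity Q.1 f + multiplicity Q.1 g :=
  multiplicity_mul (prime Q) (fin_mult Q (mul_ne_zero hf hg))

theorem ordK_div (Q : Prm F) {f g : F[X]} (hf : f ≠ 0) (hg : g ≠ 0) :
    ordK Q (algebraMap F[X] (RatFunc F) f / algebraMap F[X] (RatFunc F) g) =
      (multiplicity Q.1 f : ℤ) - multiplicity Q.1 g := by
  set x : RatFunc F := algebraMap F[X] (RatFunc F) f / algebraMap F[X] (RatFunc F) g with hx
  have hf' : algebraMap F[X] (RatFunc F) f ≠ 0 := RatFunc.algebraMap_ne_zero hf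
  have hg' : algebraMap F[X] (RatFunc F) g ≠ 0 := RatFunc.algebraMap_ne_zero hg
  have hx0 : x ≠ 0 := div_ne_zero hf' hg'
  have hd : x.denom ≠ 0 := RatFunc.denom_ne_zero x
  have hn : x.num ≠ 0 := RatFunc.num_ne_zero hx0
  have h : x.num * g = f * x.denom := (RatFunc.num_mul_eq_mul_denom_iff hg).2 hx
  have h2 := mult_mul Q hn hg
  rw [h, mult_mul Q hf hd] at h2
  unfold ordK
  omega

/-- Writing a rational function as a quotient. -/
theorem exists_div {x : RatFunc F} (hx : x ≠ 0) : ∃ f g : F[X], f ≠ 0 ∧ g ≠ 0 ∧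
    x = algebraMap F[X] (RatFunc F) f / algebraMap F[X] (RatFunc F) g :=
  ⟨x.num, x.denom, RatFunc.num_ne_zero hx, RatFunc.denom_ne_zero x, (RatFunc.num_div_denom x).symm⟩

theorem ordK_mul (Q : Prm F) {x y : RatFunc F} (hx : x ≠ 0) (hy : y ≠ 0) :
    ordK Q (x * y) = ordK Q x + ordK Q y := by
  obtain ⟨f, g, hf, hg, rfl⟩ := exists_div hx
  obtain ⟨f', g', hf', hg', rfl⟩ := exists_div hy
  rw [div_mul_div_comm, ← map_mul, ← map_mul, ordK_div Q (mul_ne_zero hf hf') (mul_ne_zero hg hg'),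
    ordK_div Q hf hg, ordK_div Q hf' hg', mult_mul Q hf hf', mult_mul Q hg hg']
  push_cast
  ring

theorem ordK_add (Q : Prm F) {x y : RatFunc F} (hx : x ≠ 0) (hy : y ≠ 0) (hxy : x + y ≠ 0) :
    min (ordK Q x) (ordK Q y) ≤ ordK Q (x + y) := by
  obtain ⟨f, g, hf, hg, rfl⟩ := exists_div hx
  obtain ⟨f', g', hf', hg', rfl⟩ := exists_div hy
  have h1 : algebraMap F[X] (RatFunc F) g ≠ 0 := RatFunc.algebraMap_ne_zero hg
  have h2 : algebraMap F[X] (RatFunc F) g' ≠ 0 := RatFunc.algebraMap_ne_zero hg'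
  rw [div_add_div _ _ h1 h2, ← map_mul, ← map_mul, ← map_mul, ← map_add] at hxy ⊢
  have h3 : f * g' + g * f' ≠ 0 := by
    intro h
    rw [h, map_zero, zero_div] at hxy
    exact hxy rfl
  rw [ordK_div Q hf hg, ordK_div Q hf' hg', ordK_div Q h3 (mul_ne_zero hg hg'), mult_mul Q hg hg']
  have h4 : min (multiplicity Q.1 (f * g')) (multiplicity Q.1 (g * f')) ≤
      multiplicity Q.1 (f * g' + g * f') := by
    apply (fin_mult Q h3).le_multiplicity_of_pow_dvd
    apply dvd_add
    · exact (pow_dvd_pow _ (min_le_left _ _)).trans (pow_multiplicity_dvd _ _)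
    · exact (pow_dvd_pow _ (min_le_right _ _)).trans (pow_multiplicity_dvd _ _)
  rw [mult_mul Q hf hg', mult_mul Q hg hf'] at h4
  rcases min_le_iff.1 h4 with h5 | h5
  · refine (min_le_left _ _).trans ?_
    push_cast
    omega
  · refine (min_le_right _ _).trans ?_
    push_cast
    omega

theorem ordK_prime_self (Q : Prm F) :
    ordK Q (algebraMap F[X] (RatFunc F) Q.1) = 1 := by
  have h := ordK_div Q (Prime.ne_zero (prime Q)) (one_ne_zero (α := F[X]))
  rw [map_one, div_one] at h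
  rw [h]
  have h1 : multiplicity Q.1 Q.1 = 1 := multiplicity_self
  have h2 : multiplicity Q.1 (1 : F[X]) = 0 :=
    multiplicity_eq_zero.2 fun h => (prime Q).not_isUnit (isUnit_of_dvd_one h)
  rw [h1, h2]
  norm_num

theorem ordK_C (Q : Prm F) {c : F} (hc : c ≠ 0) :
    ordK Q (algebraMap F[X] (RatFunc F) (C c)) = 0 := by
  have hc' : (C c : F[X]) ≠ 0 := C_ne_zero.2 hc
  have h := ordK_div Q hc' (one_ne_zero (α := F[X]))
  rw [map_one, div_one] at h
  rw [h]
  have h1 : multiplicity Q.1 (C c : F[X]) = 0 :=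
    multiplicity_eq_zero.2 fun h => (prime Q).not_isUnit (isUnit_of_dvd_unit h (isUnit_C.2 hc.isUnit))
  have h2 : multiplicity Q.1 (1 : F[X]) = 0 :=
    multiplicity_eq_zero.2 fun h => (prime Q).not_isUnit (isUnit_of_dvd_one h)
  rw [h1, h2]
  norm_num

/-- An absolute value from an integer valued valuation. -/
theorem exists_abs (o : RatFunc F → ℤ) (hmul : ∀ x y, x ≠ 0 → y ≠ 0 → o (x * y) = o x + o y)
    (hadd : ∀ x y, x ≠ 0 → y ≠ 0 → x + y ≠ 0 → o (x + y) ≤ max (o x) (o y)) :
    ∃ v : AbsoluteValue (RatFunc F) ℝ, ∀ x, x ≠ 0 → v x = (2 : ℝ) ^ o x := by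
  classical
  have hpos : ∀ n : ℤ, (0 : ℝ) < (2 : ℝ) ^ n := fun n => zpow_pos (by norm_num) n
  refine ⟨{ toFun := fun x => if x = 0 then 0 else (2 : ℝ) ^ o x
            map_mul' := ?_
            nonneg' := ?_
            eq_zero' := ?_
            add_le' := ?_ }, fun x hx => if_neg hx⟩
  · intro x y
    by_cases hx : x = 0
    · simp [hx]
    by_cases hy : y = 0
    · simp [hy]
    simp only [hx, hy, mul_ne_zero hx hy, if_false]
    rw [hmul x y hx hy, zpow_add₀ (by norm_num)]
  · intro x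
    split_ifs
    · exact le_rfl
    · exact (hpos _).le
  · intro x
    split_ifs with h
    · simp [h]
    · exact ⟨fun h' => absurd h' (hpos _).ne', fun h' => absurd h' h⟩
  · intro x y
    by_cases hx : x = 0
    · simp [hx]
    by_cases hy : y = 0
    · simp [hy]
    by_cases hxy : x + y = 0
    · rw [if_pos hxy, if_neg hx, if_neg hy]
      exact (add_pos (hpos _) (hpos _)).le
    rw [if_neg hxy, if_neg hx, if_neg hy]
    rcases le_max_iff.1 (hadd x y hx hy hxy) with h | h
    · exact (zpow_le_zpow_right₀ (by norm_num) h).trans (le_add_of_nonneg_right (hpos _).le)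
    · exact (zpow_le_zpow_right₀ (by norm_num) h).trans (le_add_of_nonneg_left (hpos _).le)

end C7aux

variable {F : Type} [Field F]

/-- C7: the absolute value attached to a prime -/
theorem exists_absP (P : Prm F) : ∃ v : AbsoluteValue (RatFunc F) ℝ, v.IsNontrivial ∧ IsAbsP P v := by
  obtain ⟨v, hv⟩ := C7aux.exists_abs (fun x => -ordK P x)
    (fun x y hx hy => by rw [C7aux.ordK_mul P hx hy]; ring)
    (fun x y hx hy hxy => by
      have := C7aux.ordK_add P hx hy hxy
      rcases min_le_iff.1 this with h | h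
      · exact le_max_of_le_left (neg_le_neg h)
      · exact le_max_of_le_right (neg_le_neg h))
  refine ⟨v, ⟨algebraMap F[X] (RatFunc F) P.1, ?_, ?_⟩, hv⟩
  · exact RatFunc.algebraMap_ne_zero (C7aux.prime P).ne_zero
  · rw [hv _ (RatFunc.algebraMap_ne_zero (C7aux.prime P).ne_zero), C7aux.ordK_prime_self]
    norm_num

/-- C7: the absolute value at infinity -/
theorem exists_absInf (F : Type) [Field F] :
    ∃ v : AbsoluteValue (RatFunc F) ℝ, v.IsNontrivial ∧ IsAbsInf v := by
  obtain ⟨v, hv⟩ := C7aux.exists_abs (F := F) (fun x => x.intDegree)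
    (fun x y hx hy => RatFunc.intDegree_mul hx hy)
    (fun x y _ hy hxy => RatFunc.intDegree_add_le hy hxy)
  refine ⟨v, ⟨RatFunc.X, RatFunc.X_ne_zero, ?_⟩, hv⟩
  rw [hv _ RatFunc.X_ne_zero, RatFunc.intDegree_X]
  norm_num

end Pool.Agent.Helper54.PT
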